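import Pool.Agent.Results.MP_f5471b_nt.OneExceptionalSet
import Pool.Agent.V11326.WP

/-!
# The strong Lang-Silverman alternative in ALL one-parameter families of elliptic curves, for ALL parameters, of whatever
height, whose conductors are close to powers of a typical base

Let `K` be a number field and `a_1, …, a_q` distinct elements of `K`, `q ≥ 3`. For `x ∈ K` let `N(x)` be the truncated
counting function of `x` with respect to `[a_1] + … + [a_q]`. There are `X ^ (2 / q + o(1))` elements `x` with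
`exp N(x) ≤ X`, of all heights. Let `lam n / log n → ∞`, for example `lam n = n`, let `U` be a countable set, `θ < 1` and
`κ > 0`. For all real `z > 1` outside a set `F` of Hausdorff dimension at most `(1 - ν) / (1 - θ)`, of measure zero if
`θ < ν`, and all `y > 0` in `U` there is `n₀` such that ALL `x ∈ K` with
`|exp (2 N(x) / q) - y z ^ lam n| ≤ z ^ (θ lam n)` for some `n ≥ n₀` have the following property.

Let `k` be any number field containing `K`, `A` a Dedekind domain, finite over `k[t]` and containing it (the ring of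
functions of a smooth affine curve over `k`, finite over the `t`-line), and let `b_1, …, b_r, c_1, …, c_r` generate the unit
ideal. Let `F_j ≠ 0` be ideals with `b_l F_j ⊆ rad (t - a_j)`. For all `D`, `g ≥ 1` and `κ' ≥ 0` there are constants `C₀`,
`c₁ > 0` and `c₂` such that for all these `x` with `h(x) ≥ C₀`, all number fields `L ⊇ k` of degree at most `D` with
`d(L) ≤ (degree k F - 2 κ) h(x)`, all points `P` of the curve over `L` with `t(P) = x` and all elliptic curves
`y² = x³ + α x + β` over `L` with integral coefficients of height at most `κ' (1 + h(j))` and invariant `j = j(P)`, that is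
`c_l(P) = j b_l(P)` for all `l`, the strong form of the Lang-Silverman alternative holds, with the constants `c₁`, `c₂`, for
all forms of dimension `g` of the powers of the curve, all polarizations and all rational points.

The proof combines the starting result `OneExceptionalSet` with the theorem of helper1 that the powers of almost every base
avoid thin sets. The definitions are those of `OneExceptionalSet`.
-/

set_option autoImplicit false

namespace Pool.Agent.Results.MP_f5471b_nt.ConductorsNearPowers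

open Polynomial IsDedekindDomain NumberField MeasureTheory Pool.Agent.TH910.LS Pool.Agent.Y725.LS
open Pool.Agent.Results.MP_f5471b_nt.OneExceptionalSet

/-- `lam n / log n` tends to infinity (for example `lam n = n`, `n!`). -/
def Fast (lam : ℕ → ℝ) : Prop := Filter.Tendsto (fun n : ℕ => lam n / Real.log n) Filter.atTop Filter.atTop

/-- The elements of `K`, different from the `a_j`, with `|(exp N(x)) ^ (2 / q) - y z ^ l| ≤ z ^ (θ l)`. -/
def Window {K : Type} [Field K] [NumberField K] {q : ℕ} (a : Fin q → K) (y z l θ : ℝ) : Set K :=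
  {x | (∀ j, x ≠ a j) ∧ |Real.exp (2 / (q : ℝ) * counting a x) - y * z ^ l| ≤ z ^ (θ * l)}

theorem result (K : Type) [Field K] [NumberField K] (q : ℕ) (hq : 3 ≤ q) (a : Fin q → K)
    (ha : Function.Injective a) (κ : ℝ) (hκ : 0 < κ) :
    ∃ ν : ℝ, 0 < ν ∧ ν ≤ 1 ∧ ∀ (lam : ℕ → ℝ) (θ : ℝ), Fast lam → θ < 1 → ∀ U : Set ℝ, U.Countable →
      ∃ E : Set ℝ, dimH E ≤ ENNReal.ofReal ((1 - ν) / (1 - θ)) ∧
        (θ < ν → volume E = 0) ∧
        ∀ z : ℝ, 1 < z → z ∉ E → ∀ y ∈ U, 0 < y → ∃ n₀ : ℕ,
        ∀ (k : Type) [Field k] [NumberField k] [Algebra K k] (A : Type) [CommRing A]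
        [IsDedekindDomain A] [Algebra k A] [Algebra k[X] A] [IsScalarTower k k[X] A]
        [Module.Finite k[X] A] [FaithfulSMul k[X] A] (r : ℕ) (b c : Fin r → A),
        Ideal.span (Set.range b) ⊔ Ideal.span (Set.range c) = ⊤ →
        ∀ F : Fin q → Ideal A, (∀ j, F j ≠ ⊥) →
        (∀ j l, ∀ e ∈ F j, b l * e ∈
          (Ideal.span {coord k A - algebraMap k A (algebraMap K k (a j))}).radical) →
        ∀ (D g : ℕ) (κ' : ℝ), 0 < g → 0 ≤ κ' → ∃ C₀ c₁ : ℝ, 0 < c₁ ∧ ∃ c₂ : ℕ,
          ∀ n : ℕ, n₀ ≤ n → ∀ x ∈ Window a y z (lam n) θ, C₀ ≤ height x →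
          ∀ (L : Type) [Field L] [NumberField L] [Algebra K L] [Algebra k L]
            [IsScalarTower K k L], Module.finrank ℚ L ≤ D →
            logDisc L ≤ (degree k F - 2 * κ) * height x →
          ∀ φ : A →ₐ[k] L, φ (coord k A) = algebraMap K L x →
          ∀ α β : 𝓞 L, 4 * (α : L) ^ 3 + 27 * (β : L) ^ 2 ≠ 0 →
            (∀ l, φ (c l) = jinv (α : L) β * φ (b l)) →
            absH (α : L) + absH (β : L) ≤ κ' * (1 + absH (jinv (α : L) β)) →
          ∀ (W : Type) [Field W] [NumberField W] [Algebra L W] [IsGalois L W] [DecidableEq W],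
            ChatLim W α β ∧ Alternative c₁ c₂ g α β W := by
  obtain ⟨h1, h2, -⟩ := OneExceptionalSet.result K q hq a ha
  obtain ⟨C1, hC1⟩ := (h1 1 one_pos).1
  obtain ⟨E, ⟨ν, C, hν, -, hC⟩, -, hE⟩ := h2 κ hκ
  have hqr : (0 : ℝ) < q := by exact_mod_cast (by omega : 0 < q)
  obtain ⟨ν', hν', hν1, hmain⟩ := Pool.Agent.V11326.WP.single (r := 2 / (q : ℝ)) (by positivity) E
    (fun x : K => ∀ j, x ≠ a j) (fun x => counting a x) hν (C := C)
    (fun X hX => (hC1 X hX).1) hC
  refine ⟨ν', hν', hν1, fun lam θ hlam hθ U hU => ?_⟩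
  obtain ⟨F, hF, hF0, h3⟩ := hmain lam θ hlam hθ U hU
  refine ⟨F, hF, hF0, fun z hz hzF y hy hy0 => ?_⟩
  obtain ⟨n₀, hn⟩ := h3 z hz hzF y hy hy0
  refine ⟨n₀, ?_⟩
  intro k _ _ _ A _ _ _ _ _ _ _ r b c hbc I hI hbI D g κ' hg hκ'
  obtain ⟨C₀, c₁, hc₁, c₂, h4⟩ := hE k A r b c hbc I hI hbI D g κ' hg hκ'
  refine ⟨C₀, c₁, hc₁, c₂, ?_⟩
  intro n hnn x hx hx0 L _ _ _ _ _ hD hdL φ hφ α β hαβ hjP hsmall W _ _ _ _ _
  exact h4 x (hn n hnn x hx.1 hx.2) hx.1 hx0 L hD hdL φ hφ α β hαβ hjP hsmall W


end Pool.Agent.Results.MP_f5471b_nt.ConductorsNearPowers
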