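import Pool.Agent.Results.MP_f5471b_nt.AllFieldsFaltings
import Pool.Agent.H164.NA.Core

/-!
# The strong inequality of Lang and Silverman with the relative Faltings height, for all products of powers of elliptic
# curves whose invariants are near a typical point, over all number fields

`K` is a number field of degree `n`, `K_ℝ` its real space (`mixedSpace K`) and `H` the absolute multiplicative height.
There is an absolute constant `c₀ > 0` such that for almost every `z` in `K_ℝ`, all `κ ∈ (0, 1)` and `σ > (7 + κ) / 4` there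
is a finite set `F ⊂ K` with the following property: for ALL `A = ∏ E_i ^ (g_i)`, where the `E_i` are elliptic curves over
`K` (all twists) with invariants `j_i ∈ K \ F`, `|j_i - z|_v ≤ H(j_i) ^ (-σ)` at all archimedean places, all polarizations
given by positive definite matrices `M_i` and all points `P ∈ A(K)`: either some component `P_i ∈ E_i ^ (g_i)` is zero, or
no `P_i` is torsion and the absolute canonical height of `P` is at least `(c₀ κ / g) max (h_F(A / K), 1)`, `g = ∑ g_i`,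
`h_F` the relative Faltings height. Moreover almost every real (complex) number `z` has this property for ALL number fields
`K` contained in `ℝ` (in `ℂ`) at once, with `|j - z| ≤ H(j) ^ (- n σ)`, `σ > (7 + κ) / 4` (`σ > (7 + κ) / 8`).
By Dirichlet's theorem infinitely many `j ∈ K` are as near to `z` if `σ < 2` (`σ < 1` in `ℂ`).
-/

set_option autoImplicit false

namespace Pool.Agent.Results.MP_f5471b_nt.NearAlmostEveryPoint

open NumberField MeasureTheory IsDedekindDomain Pool.Agent.TH942 Pool.Agent.TH910.LS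
open AllFieldsFaltings (StrongLS jInv IsPeriod faltings Inv Exc)

section Defs

variable {K : Type} [Field K] [NumberField K]

/-- the absolute multiplicative height -/
noncomputable def H (c : K) : ℝ := Real.exp (Height.logHeight₁ c / Module.finrank ℚ K)

open scoped Classical in
/-- `c` is within `H(c) ^ (-σ)` of the point `z` of the real space of `K`, at every archimedean place -/
def Near (σ : ℝ) (z : mixedEmbedding.mixedSpace K) (c : K) : Prop :=
  dist (mixedEmbedding K c) z ≤ H c ^ (-σ)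

open scoped Classical in
/-- For all products of powers `A = ∏ E_i ^ (g_i)` of elliptic curves over `K` with invariants in `J`, all polarizations and
all `P ∈ A(K)`: a component of `P` is zero, or none is torsion and the absolute canonical height of `P` is at least
`c / (∑ g_i)` times the maximum of `1` and the relative Faltings height of `A`. -/
def Products (c : ℝ) (J : Set K) : Prop :=
  ∀ r : ℕ, 0 < r → ∀ (a b : Fin r → K) (τ : Fin r → InfinitePlace K → UpperHalfPlane),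
    (∀ i, 4 * a i ^ 3 + 27 * b i ^ 2 ≠ 0) → (∀ i, jInv (a i) (b i) ∈ J) →
    (∀ i, IsPeriod (jInv (a i) (b i)) (τ i)) → ∀ g : Fin r → ℕ, (∀ i, 1 ≤ g i) →
    ∀ (M : ∀ i, Matrix (Fin (g i)) (Fin (g i)) ℤ),
    (∀ i, ((M i).map (Int.cast : ℤ → ℝ)).PosDef) →
    ∀ P : ∀ i, Fin (g i) → SPt (a i) (b i),
      (∃ i, P i = 0) ∨ ((∀ i, ∃ k, ¬ IsOfFinAddOrder (P i k)) ∧
        c / (∑ i, g i : ℕ) * max (∑ i, g i * faltings (a i) (b i) (τ i)) 1 ≤
          (∑ i, chatM (M i) (P i)) / Module.finrank ℚ K)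

/-- the property for all members of `J` outside a finite set -/
def AlmostAll (c : ℝ) (J : Set K) : Prop := ∃ F : Set K, F.Finite ∧ Products c (J \ F)

end Defs

section Aux

/-- the bad invariants -/
def BadJ (c₀ : ℝ) (K : Type) [Field K] [NumberField K] (κ : ℝ) : Set K :=
  {j : K | (j ≠ 0 ∧ j ≠ 1728) ∧ ¬ StrongLS (c₀ * κ) j}

/-- the count of the starting file -/
def Count (c₀ : ℝ) : Prop :=
  ∀ η ε : ℝ, 0 < η → η < 1 / 2 → 0 < ε → ∃ C : ℝ, 0 < C ∧
    ∀ (K : Type) [Field K] [NumberField K] (B : ℝ), 1 ≤ B → (Inv K B).Finite ∧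
      ((Exc K (c₀ * (1 - 2 * η)) B).ncard : ℝ) ≤ (C * B ^ (2 - η / 2 + ε)) ^ Module.finrank ℚ K

lemma mono {K : Type} [Field K] [NumberField K] {κ r : ℝ} (hκ : κ ≤ r) {c : K} (hc : StrongLS r c) :
    StrongLS κ c := by
  classical
  intro a b τ hD hab hτ g M hM P hP
  refine le_trans ?_ (hc a b τ hD hab hτ g M hM P hP)
  exact mul_le_mul_of_nonneg_right hκ (zero_le_one.trans (le_max_right _ _))

lemma count {c₀ : ℝ} (h : Count c₀) (K : Type) [Field K] [NumberField K] (κ : ℝ) (hκ : κ ∈ Set.Ioo (0 : ℝ) 1) :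
    ∀ ε : ℝ, 0 < ε → ∃ C : ℝ, ∀ X : ℝ, 1 ≤ X →
    {c : K | c ∈ BadJ c₀ K κ ∧ Pool.Agent.H164.NA.H c ≤ X}.Finite ∧
      ({c : K | c ∈ BadJ c₀ K κ ∧ Pool.Agent.H164.NA.H c ≤ X}.ncard : ℝ) ≤
        C * X ^ ((Module.finrank ℚ K : ℝ) * ((7 + κ) / 4) + ε) := by
  intro ε hε
  have hn : (0 : ℝ) < Module.finrank ℚ K := Pool.Agent.H164.NA.n_pos
  obtain ⟨C, hC0, hC⟩ := h ((1 - κ) / 2) (ε / Module.finrank ℚ K)
    (by linarith [hκ.2]) (by linarith [hκ.1]) (by positivity)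
  have ec : c₀ * (1 - 2 * ((1 - κ) / 2)) = c₀ * κ := by ring
  rw [ec] at hC
  refine ⟨C ^ Module.finrank ℚ K, fun X hX => ?_⟩
  have hX0 : 0 < X := by linarith
  obtain ⟨h1, h2⟩ := hC K X hX
  have heq : {c : K | c ∈ BadJ c₀ K κ ∧ Pool.Agent.H164.NA.H c ≤ X} = Exc K (c₀ * κ) X := by
    ext c
    constructor
    · rintro ⟨⟨⟨g0, g1⟩, g2⟩, g3⟩
      exact ⟨⟨g0, g1, (Pool.Agent.H164.NA.H_le_iff c hX0).1 g3⟩, g2⟩
    · rintro ⟨⟨g0, g1, g3⟩, g2⟩
      exact ⟨⟨⟨g0, g1⟩, g2⟩, (Pool.Agent.H164.NA.H_le_iff c hX0).2 g3⟩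
  rw [heq]
  refine ⟨h1.subset fun c hc => hc.1, h2.trans (le_of_eq ?_)⟩
  rw [mul_pow, ← Real.rpow_natCast (X ^ _), ← Real.rpow_mul hX0.le]
  congr 2
  field_simp
  ring

lemma dense {c₀ : ℝ} (h0 : 0 < c₀) (K : Type) [Field K] [NumberField K] (κ : ℝ) (hκ : κ ∈ Set.Ioo (0 : ℝ) 1) (t : ℝ)
    (ht : (7 + κ) / 4 < t) :
    ∃ r : ℚ, (r : ℝ) ∈ Set.Ioo (0 : ℝ) 1 ∧ (7 + (r : ℝ)) / 4 < t ∧ BadJ c₀ K κ ⊆ BadJ c₀ K r := by
  obtain ⟨r, hr1, hr2⟩ : ∃ r : ℚ, κ < (r : ℝ) ∧ (r : ℝ) < min 1 (4 * t - 7) :=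
    exists_rat_btwn (lt_min hκ.2 (by linarith))
  have hr3 := hr2.trans_le (min_le_left _ _)
  have hr4 := hr2.trans_le (min_le_right _ _)
  exact ⟨r, ⟨hκ.1.trans hr1, hr3⟩, by linarith,
    fun c hc => ⟨hc.1, fun hcon => hc.2 (mono (mul_le_mul_of_nonneg_left hr1.le h0.le) hcon)⟩⟩

lemma s_nonneg (κ : ℝ) (hκ : κ ∈ Set.Ioo (0 : ℝ) 1) : 0 ≤ (7 + κ) / 4 := by linarith [hκ.1]

/-- from finitely many bad invariants to all products -/
lemma almost {K : Type} [Field K] [NumberField K] {c₀ κ : ℝ} (h0 : 0 < c₀) (hκ : 0 < κ) {J : Set K}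
    (h : {c : K | c ∈ J ∧ c ∈ BadJ c₀ K κ}.Finite) : AlmostAll (c₀ * κ) J := by
  classical
  refine ⟨{c : K | c ∈ J ∧ c ∈ BadJ c₀ K κ} ∪ {0, 1728}, h.union (Set.toFinite _), ?_⟩
  intro r hr a b τ hD hj hτ g hg M hM P
  refine AllFieldsFaltings.part_six (by positivity) hr a b τ hD (fun i => ?_) hτ g hg M hM P
  obtain ⟨h1, h2⟩ := hj i
  by_contra hcon
  apply h2
  by_cases e0 : jInv (a i) (b i) = 0
  · exact Or.inr (Or.inl e0)
  · by_cases e1 : jInv (a i) (b i) = 1728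
    · exact Or.inr (Or.inr e1)
    · exact Or.inl ⟨h1, ⟨e0, e1⟩, hcon⟩

end Aux

open scoped Classical in
/-- **Theorem.** There is an absolute constant `c₀ > 0` with the following properties; `K` is any number field, of degree
`n`, and `AlmostAll c J` means that there is a finite set `F ⊂ K` such that for all products of powers `A = ∏ E_i ^ (g_i)` of
elliptic curves over `K` (all twists) with invariants in `J \ F`, all polarizations and all `P ∈ A(K)`: some component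
`P_i ∈ E_i ^ (g_i)` of `P` is zero, or none is torsion and the absolute canonical height of `P` is at least
`c / g max (h_F(A/K), 1)`, `g = ∑ g_i`, with the relative Faltings height.
(1) For almost every `z` in the real space of `K`, for all `κ ∈ (0, 1)` and `σ > (7 + κ) / 4`, `AlmostAll (c₀ κ) J` holds
for the set `J` of the `j ∈ K` with `|j - z|_v ≤ H(j) ^ (-σ)` at all archimedean places.
(2) For every map `φ` from `K` to a metric space `M`, every `κ ∈ (0, 1)` and `σ > 0` there is a set `E ⊆ M` of dimension at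
most `n (7 + κ) / (4 σ)` such that for all `z` outside `E` `AlmostAll (c₀ κ) J` holds for the set `J` of the `j ∈ K` with
`dist (φ j, z) ≤ H(j) ^ (-σ)`.
(3) For almost every real number `z`, for all number fields `K ⊂ ℝ`, all `κ ∈ (0, 1)` and `σ > (7 + κ) / 4`:
`AlmostAll (c₀ κ) J` for the set `J` of the `j ∈ K` with `|j - z| ≤ H(j) ^ (- n σ)`; and infinitely many rational `j` satisfy
`|j - z| ≤ H(j) ^ (-σ)` if `σ < 2`.
(4) For almost every complex number `z`, for all number fields `K ⊂ ℂ`, all `κ ∈ (0, 1)` and `σ > (7 + κ) / 8`: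
`AlmostAll (c₀ κ) J` for the set `J` of the `j ∈ K` with `|j - z| ≤ H(j) ^ (- n σ)`. -/
theorem result : ∃ c₀ : ℝ, 0 < c₀ ∧
    (∀ (K : Type) [Field K] [NumberField K], ∀ᵐ z : mixedEmbedding.mixedSpace K,
      ∀ κ σ : ℝ, 0 < κ → κ < 1 → (7 + κ) / 4 < σ → AlmostAll (c₀ * κ) {j : K | Near σ z j}) ∧
    (∀ (K : Type) [Field K] [NumberField K] (M : Type) [MetricSpace M] (φ : K → M) (κ σ : ℝ),
      0 < κ → κ < 1 → 0 < σ → ∃ E : Set M,
        dimH E ≤ ENNReal.ofReal (Module.finrank ℚ K * (7 + κ) / (4 * σ)) ∧ ∀ z : M, z ∉ E →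
          AlmostAll (c₀ * κ) {j : K | dist (φ j) z ≤ H j ^ (-σ)}) ∧
    (∀ᵐ z : ℝ, (∀ (K : IntermediateField ℚ ℝ) [NumberField K], ∀ κ σ : ℝ, 0 < κ → κ < 1 → (7 + κ) / 4 < σ →
      AlmostAll (c₀ * κ) {j : K | |(j : ℝ) - z| ≤ H j ^ (-(Module.finrank ℚ K * σ))}) ∧
        ∀ σ : ℝ, σ < 2 → {j : ℚ | |(j : ℝ) - z| ≤ H j ^ (-σ)}.Infinite) ∧
    (∀ᵐ z : ℂ, ∀ (K : IntermediateField ℚ ℂ) [NumberField K], ∀ κ σ : ℝ, 0 < κ → κ < 1 → (7 + κ) / 8 < σ →
      AlmostAll (c₀ * κ) {j : K | ‖(j : ℂ) - z‖ ≤ H j ^ (-(Module.finrank ℚ K * σ))}) := by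
  obtain ⟨c₀, hc₀, h, -⟩ := AllFieldsFaltings.part_one
  have hC : Count c₀ := by
    intro η ε h1 h2 h3
    obtain ⟨C, hC0, hC⟩ := h η ε h1 h2 h3
    exact ⟨C, hC0, fun K _ _ B hB => ⟨(hC K B hB).1, (hC K B hB).2.1⟩⟩
  refine ⟨c₀, hc₀, ?_, ?_, ?_, ?_⟩
  · intro K _ _
    have h1 := Pool.Agent.H164.NA.near_space (K := K) (Set.Ioo (0 : ℝ) 1) (fun κ => (7 + κ) / 4) (BadJ c₀ K)
      s_nonneg (count hC K) (dense hc₀ K) (volume : Measure (mixedEmbedding.mixedSpace K))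
      (by rw [mixedEmbedding.finrank K]; exact Module.finrank_pos) (fun c : K => mixedEmbedding K c)
    filter_upwards [h1] with z hz κ σ hκ0 hκ hσ
    have hn : (0 : ℝ) < Module.finrank ℚ K := Pool.Agent.H164.NA.n_pos
    exact almost hc₀ hκ0 (hz κ ⟨hκ0, hκ⟩ σ (by
      rw [mixedEmbedding.finrank K, mul_div_cancel_left₀ _ hn.ne']
      exact hσ))
  · intro K _ _ M _ φ κ σ hκ0 hκ hσ
    refine ⟨{z : M | {c : K | dist (φ c) z ≤ Pool.Agent.H164.NA.H c ^ (-σ) ∧ c ∈ BadJ c₀ K κ}.Infinite},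
      (Pool.Agent.H164.NA.near_dim (BadJ c₀ K κ) (s_nonneg κ ⟨hκ0, hκ⟩)
        (count hC K κ ⟨hκ0, hκ⟩) φ hσ).trans (le_of_eq ?_), fun z hz => ?_⟩
    · congr 1
      field_simp
    · exact almost hc₀ hκ0 (Set.not_infinite.1 hz)
  · have h1 := Pool.Agent.H164.NA.near_subfields (Set.Ioo (0 : ℝ) 1) (fun κ => (7 + κ) / 4) (BadJ c₀)
      s_nonneg (count hC) (dense hc₀) ℝ (volume : Measure ℝ) (by rw [Module.finrank_self]; exact one_pos)
    filter_upwards [h1, Pool.Agent.H164.NA.ae_irrational] with z hz hirr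
    refine ⟨fun K _ κ σ hκ0 hκ hσ => ?_, fun σ hσ => Pool.Agent.H164.NA.near_infinite hirr hσ⟩
    exact almost hc₀ hκ0 (hz K κ ⟨hκ0, hκ⟩ σ (by rw [Module.finrank_self, Nat.cast_one, div_one]; exact hσ))
  · have h1 := Pool.Agent.H164.NA.near_subfields (Set.Ioo (0 : ℝ) 1) (fun κ => (7 + κ) / 4) (BadJ c₀)
      s_nonneg (count hC) (dense hc₀) ℂ (volume : Measure ℂ) (by rw [Complex.finrank_real_complex]; norm_num)
    filter_upwards [h1] with z hz K _ κ σ hκ0 hκ hσ
    refine almost hc₀ hκ0 ?_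
    have h2 := hz K κ ⟨hκ0, hκ⟩ σ (by
      rw [Complex.finrank_real_complex]
      push_cast
      linarith)
    refine h2.subset ?_
    rintro c ⟨g1, g2⟩
    exact ⟨by rw [dist_eq_norm]; exact g1, g2⟩

end Pool.Agent.Results.MP_f5471b_nt.NearAlmostEveryPoint
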